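import Pool.Agent.U365.POW.J
import Pool.Agent.Results.MP_7bfa24_nt.StarshapedHeights

/-!
# The generalized abc inequality for all `n`-tuples with height near `s(m)`, `m - φ(m)` or `α m + β f(m)`

Let `s(m)` be the sum of the proper divisors of `m`. Let `n ≥ 3`, `b = binom (n, ⌊n / 2⌋)`, `η > 0`, `κ ≥ 0`, let `G` have
steps bounded below by a positive constant and growth at most `v ^ d`, for example `G v = v`, and let `e = d (1 - 1 /
b) / η + κ < 1`. For a set of `m` of lower density at least `1 - e`, and for almost all `m` if `e < 1 / 2`: ALL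
admissible `n`-tuples `x` with `|max |x_i| - G (s(m))| ≤ s(m) ^ κ` satisfy `max |x_i| < R (x_1 ⋯ x_n) ^ η`; and the same
holds for `m - φ(m)` in place of `s(m)`. More precisely this holds for almost all `m` with a divisor `≥ m ^ (e + ρ)`
which is a prime or the product of two different primes (if `e < 1 / 2`, for almost all `m`), and for the values `g =
α m + β f(m)` of multiplicative functions with `f p = p + c` at the primes, uniformly in `|α|, |β| ≤ N ^ δ`. For the
exponent `η = 2 n - 5` of the question and `n ≥ 4` we have `e = (1 - 1 / b) / (2 n - 5) < 1 / 2` for `G v = v`, `κ = 0`: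
the inequality of the question holds for all admissible `n`-tuples with `max |x_i| = s(m)`, for almost all `m`.

Proof. The exceptional tuples are counted by the starting theorems of this problem (`StarshapedHeights`). Let `m = k v
p` with large primes `p ≠ v`. Then `g = A v p + B (v + p) + B c`, `A = α k + β f(k)`, `B = β c f(k)`, and so `(A v + B) (A
p + B) = A g + B² - A B c`: for given `g`, `k`, `α`, `β` there are only `N^o(1)` possibilities for `p` and `v`; for `e <
1 / 2` one uses the divisors `D` of `m` without small prime factors: `α m` is congruent to `g` modulo `f(D)` (tool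
`Pool.Agent.U365.POW` of helper365). A set with a power saving is not avoided by counting, since the values `s(m)`, `m
- φ(m)` are taken with large multiplicities.
-/

set_option autoImplicit false

namespace Pool.Agent.Results.MP_7bfa24_nt.AliquotValues

open Pool.Agent.U365.POW (Law law_set law_mono)
open Pool.Agent.N733.TG (Expanding expanding_pow)

/-- `x` is admissible: the entries sum to `0`, their greatest common divisor is `1`, and no subsum
over a nonempty proper set of indices vanishes. -/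
def Admissible {n : ℕ} (x : Fin n → ℤ) : Prop :=
  ∑ i, x i = 0 ∧ Finset.univ.gcd x = 1 ∧
    ∀ I : Finset (Fin n), I.Nonempty → I ≠ Finset.univ → ∑ i ∈ I, x i ≠ 0

/-- the radical of an integer: the product of the distinct primes dividing it -/
def radical (m : ℤ) : ℕ := ∏ p ∈ m.natAbs.primeFactors, p

/-- `max |x_i|` -/
def ht {n : ℕ} (x : Fin n → ℤ) : ℕ := Finset.univ.sup fun i => (x i).natAbs

/-- all admissible `n`-tuples `x` with `|max |x_i| - G v| ≤ v ^ κ` satisfy `max |x_i| < R (x_1 ⋯ x_n) ^ η` -/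
def Clear (n : ℕ) (η : ℝ) (G : ℕ → ℝ) (κ : ℝ) (v : ℕ) : Prop :=
  ∀ x : Fin n → ℤ, Admissible x → |(ht x : ℝ) - G v| ≤ (v : ℝ) ^ κ → (ht x : ℝ) < (radical (∏ j, x j) : ℝ) ^ η

lemma count (n : ℕ) (hn : 3 ≤ n) (η : ℝ) (hη : 0 < η) (ε : ℝ) (hε : 0 < ε) : ∃ C : ℝ, ∀ X : ℝ, 1 ≤ X →
    {x : Fin n → ℤ | x ∈ {x : Fin n → ℤ | Admissible x ∧ ¬ (ht x : ℝ) < (radical (∏ j, x j) : ℝ) ^ η} ∧
        ((ht x : ℕ) : ℝ) ≤ X}.Finite ∧
      ({x : Fin n → ℤ | x ∈ {x : Fin n → ℤ | Admissible x ∧ ¬ (ht x : ℝ) < (radical (∏ j, x j) : ℝ) ^ η} ∧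
        ((ht x : ℕ) : ℝ) ≤ X}.ncard : ℝ) ≤ C * X ^ (1 / η * (1 - 1 / (n.choose (n / 2) : ℝ)) + ε) := by
  have hη' : 0 < 1 / η := by positivity
  obtain ⟨K, hK⟩ := StarshapedHeights.count n hn (1 / η) hη' ε hε
  refine ⟨K, fun X hX => ?_⟩
  obtain ⟨h2, h3⟩ := hK X hX
  have he : {x : Fin n → ℤ | x ∈ {x : Fin n → ℤ | Admissible x ∧ ¬ (ht x : ℝ) < (radical (∏ j, x j) : ℝ) ^ η} ∧
      ((ht x : ℕ) : ℝ) ≤ X} ⊆ {x | x ∈ StarshapedHeights.Exc n (1 / η) ∧ (StarshapedHeights.ht x : ℝ) ≤ X} := by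
    rintro x ⟨⟨g1, g2⟩, g3⟩
    refine ⟨⟨g1, ?_⟩, g3⟩
    rw [not_lt] at g2
    have h0 : (0 : ℝ) ≤ (radical (∏ j, x j) : ℝ) := Nat.cast_nonneg _
    change (radical (∏ j, x j) : ℝ) ≤ (ht x : ℝ) ^ (1 / η)
    calc (radical (∏ j, x j) : ℝ) = ((radical (∏ j, x j) : ℝ) ^ η) ^ (1 / η) := by
          rw [← Real.rpow_mul h0, mul_one_div_cancel hη.ne', Real.rpow_one]
      _ ≤ _ := Real.rpow_le_rpow (by positivity) g2 hη'.le
  refine ⟨h2.subset he, le_trans ?_ h3⟩
  exact_mod_cast Set.ncard_le_ncard he h2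

/-- **The generalized abc inequality near values of functions similar to the aliquot sum.** Let `G` have steps `≥ a > 0`
and growth at most `v ^ d`, `n ≥ 3`, `b = binom (n, ⌊n / 2⌋)`, `η > 0`, `κ ≥ 0` and `e = d (1 - 1 / b) / η + κ < 1`. The
property that ALL admissible `n`-tuples `x` with `|max |x_i| - G g| ≤ g ^ κ` satisfy `max |x_i| < R (x_1 ⋯ x_n) ^ η`
holds for the values of similar functions as the aliquot sum with the exponent `e` (`Law`): if `e < 1 / 2`, then for ALL
`g = α m + β f(m)`, `α ≠ 0`, at almost all `m`, and so for `s(m)` and `m - φ(m)` for almost all `m`; in general, for every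
`ρ > 0`, at almost all the `m` with a divisor `≥ m ^ (e + ρ)` which is a prime or the product of two different primes,
and for `s(m)` and `m - φ(m)` for a set of `m` of lower density at least `1 - e`. -/
theorem result :
    (∀ (G : ℕ → ℝ) (d : ℝ), Expanding G d → ∀ (n : ℕ) (η κ : ℝ), 3 ≤ n → 0 < η → 0 ≤ κ →
      d * (1 / η * (1 - 1 / (n.choose (n / 2) : ℝ))) + κ < 1 →
      Law (d * (1 / η * (1 - 1 / (n.choose (n / 2) : ℝ))) + κ) (Clear n η G κ)) ∧
    ∀ α d : ℝ, 0 < α → 1 ≤ d → Expanding (fun v => α * (v : ℝ) ^ d) d := by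
  refine ⟨fun G d hG n η κ hn hη hκ h1 => ?_, fun α d hα hd => expanding_pow hα hd⟩
  have hη' : 0 < 1 / η := by positivity
  have h2 := law_set {x : Fin n → ℤ | Admissible x ∧ ¬ (ht x : ℝ) < (radical (∏ j, x j) : ℝ) ^ η}
    (fun x => ((ht x : ℕ) : ℝ)) hG (s := 1 / η * (1 - 1 / (n.choose (n / 2) : ℝ)))
    (mul_nonneg hη'.le (StarshapedHeights.gap n)) hκ h1 (fun ε hε => count n hn η hη ε hε)
  refine law_mono h2 (fun g hg x hx hxg => ?_)
  by_contra hcon
  exact hg x hxg ⟨hx, hcon⟩

end Pool.Agent.Results.MP_7bfa24_nt.AliquotValues
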