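import Pool.Agent.U536.CF.F
import Pool.Agent.Results.MP_7bfa24_nt.StarshapedHeights

/-!
# The generalized abc inequality for all `n`-tuples with height near an integer with a large common factor with a value of `f`

Let `f` be a positive multiplicative function of at most polynomial growth such that `f p ≤ M p` for the large primes
`p`, with different values at different large primes; for example Euler's function or the sum of the divisors. Let `G`
have steps bounded below by a positive constant and growth at most `v^d`, for example `α v^d`. Let `n ≥ 3`, `B = binom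
(n, ⌊n / 2⌋)`, `η > 0`, `κ ≥ 0`, `d (1 - 1 / B) / η + κ < ρ ≤ 1`, `b < 1` and `0 ≤ c < 2 b - 1`. For all `m ≤ N` but `N
exp (-(log N)^c)`, for EVERY integer `w ≥ exp ((log N)^b)` with `gcd(w, f(m)) ≥ w^ρ`: ALL admissible `n`-tuples `x` with
`|max |x_i| - G w| ≤ w^κ` satisfy `max |x_i| < R (x_1 ⋯ x_n) ^ η`. The integers `w` include all large divisors of
`f(m)` and their multiples by small integers; for Euler's function, the orders of the elements of the group of units
modulo `m`. For the exponent `η = 2 n - 5` of the question and heights `max |x_i| = w` the condition is `(1 - 1 / B) /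
(2 n - 5) < ρ`.

Proof. The tool `Pool.Agent.U536.CF` bounds the number of the `m ≤ N` for which such a `w` lies in a given set with a
power saving, by Hölder's inequality for the number of the ordered factorizations. The exceptional tuples are counted
by the starting theorems of this problem (`StarshapedHeights`).
-/

set_option autoImplicit false

namespace Pool.Agent.Results.MP_7bfa24_nt.CommonFactors

open Pool.Agent.N733.TG (LM Expanding lm_totient lm_sigma expanding_pow)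
open Pool.Agent.U536.CF (Common common_good common_of_dvd common_order)

/-- `x` is admissible: the entries sum to `0`, their greatest common divisor is `1`, and no subsum
over a nonempty proper set of indices vanishes. -/
def Admissible {n : ℕ} (x : Fin n → ℤ) : Prop :=
  ∑ i, x i = 0 ∧ Finset.univ.gcd x = 1 ∧
    ∀ I : Finset (Fin n), I.Nonempty → I ≠ Finset.univ → ∑ i ∈ I, x i ≠ 0

/-- the radical of an integer: the product of the distinct primes dividing it -/
def radical (m : ℤ) : ℕ := ∏ p ∈ m.natAbs.primeFactors, p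

/-- `max |x_i|` -/
def ht {n : ℕ} (x : Fin n → ℤ) : ℕ := Finset.univ.sup fun i => (x i).natAbs

lemma count (n : ℕ) (hn : 3 ≤ n) (η : ℝ) (hη : 0 < η) (ε : ℝ) (hε : 0 < ε) : ∃ C : ℝ, ∀ X : ℝ, 1 ≤ X →
    {x : Fin n → ℤ | (Admissible x ∧ ¬ (ht x : ℝ) < (radical (∏ j, x j) : ℝ) ^ η) ∧ ((ht x : ℕ) : ℝ) ≤ X}.Finite ∧
      ({x : Fin n → ℤ | (Admissible x ∧ ¬ (ht x : ℝ) < (radical (∏ j, x j) : ℝ) ^ η) ∧ ((ht x : ℕ) : ℝ) ≤ X}.ncard : ℝ) ≤
        C * X ^ (1 / η * (1 - 1 / (n.choose (n / 2) : ℝ)) + ε) := by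
  have hη' : 0 < 1 / η := by positivity
  obtain ⟨K, hK⟩ := StarshapedHeights.count n hn (1 / η) hη' ε hε
  refine ⟨K, fun X hX => ?_⟩
  obtain ⟨h2, h3⟩ := hK X hX
  have he : {x : Fin n → ℤ | (Admissible x ∧ ¬ (ht x : ℝ) < (radical (∏ j, x j) : ℝ) ^ η) ∧ ((ht x : ℕ) : ℝ) ≤ X} ⊆
      {x | x ∈ StarshapedHeights.Exc n (1 / η) ∧ (StarshapedHeights.ht x : ℝ) ≤ X} := by
    rintro x ⟨⟨g1, g2⟩, g3⟩
    refine ⟨⟨g1, ?_⟩, g3⟩
    rw [not_lt] at g2
    have h0 : (0 : ℝ) ≤ (radical (∏ j, x j) : ℝ) := Nat.cast_nonneg _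
    change (radical (∏ j, x j) : ℝ) ≤ (ht x : ℝ) ^ (1 / η)
    calc (radical (∏ j, x j) : ℝ) = ((radical (∏ j, x j) : ℝ) ^ η) ^ (1 / η) := by
          rw [← Real.rpow_mul h0, mul_one_div_cancel hη.ne', Real.rpow_one]
      _ ≤ _ := Real.rpow_le_rpow (by positivity) g2 hη'.le
  refine ⟨h2.subset he, le_trans ?_ h3⟩
  exact_mod_cast Set.ncard_le_ncard he h2

/-- all admissible `n`-tuples `x` with `|max |x_i| - G v| ≤ v ^ κ` satisfy `max |x_i| < R (x_1 ⋯ x_n) ^ η` -/
def Clear (n : ℕ) (η : ℝ) (G : ℕ → ℝ) (κ : ℝ) (v : ℕ) : Prop :=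
  ∀ x : Fin n → ℤ, Admissible x → |(ht x : ℝ) - G v| ≤ (v : ℝ) ^ κ → (ht x : ℝ) < (radical (∏ j, x j) : ℝ) ^ η

/-- **The generalized abc inequality near all integers with a large common factor with a value of a multiplicative
function.** Let `f` be multiplicative and positive, of at most polynomial growth, with `f p ≤ M p` at the large
primes, and injective there. Let `G` have steps `≥ a > 0` and growth at most `v^d`. Let `n ≥ 3`, `B = binom (n, ⌊n /
2⌋)`, `η > 0`, `κ ≥ 0`, `d (1 - 1 / B) / η + κ < ρ ≤ 1`, `b < 1` and `0 ≤ c < 2 b - 1`. For all large `N`, for all `m ≤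
N` but `N exp (-(log N)^c)`, for EVERY integer `w ≥ exp ((log N)^b)` with `gcd(w, f(m)) ≥ w^ρ`, ALL admissible
`n`-tuples `x` with `|max |x_i| - G w| ≤ w^κ` satisfy `max |x_i| < R (x_1 ⋯ x_n) ^ η`. All divisors `w ≥ exp ((log
N)^b)` of `f(m)` are such integers `w`, and for Euler's function the orders `≥ exp ((log N)^b)` of the units modulo
`m`. Euler's function and the sum of the divisors are examples of `f`, and `α v^d` with `α > 0`, `d ≥ 1` is an
example of `G`. -/
theorem result :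
    (∀ f : ℕ → ℕ, LM f → ∀ (G : ℕ → ℝ) (d : ℝ), Expanding G d → ∀ (n : ℕ) (η κ ρ b c : ℝ), 3 ≤ n → 0 < η → 0 ≤ κ →
      d * (1 / η * (1 - 1 / (n.choose (n / 2) : ℝ))) + κ < ρ → ρ ≤ 1 → b < 1 → 0 ≤ c → c < 2 * b - 1 →
      ∃ N₀ : ℕ, ∀ N : ℕ, N₀ ≤ N →
        ({m : ℕ | 1 ≤ m ∧ m ≤ N ∧ ¬ ∀ w : ℕ, Common f b ρ N m w → Clear n η G κ w}.ncard : ℝ) ≤
          N * Real.exp (-(Real.log N ^ c))) ∧
    (LM Nat.totient ∧ LM (fun m => ∑ d ∈ m.divisors, d)) ∧
    (∀ α d : ℝ, 0 < α → 1 ≤ d → Expanding (fun v => α * (v : ℝ) ^ d) d) ∧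
    (∀ (f : ℕ → ℕ) (b ρ : ℝ) (N m w : ℕ), ρ ≤ 1 → Real.exp (Real.log N ^ b) ≤ (w : ℝ) → w ∣ f m → Common f b ρ N m w) ∧
    ∀ (b ρ : ℝ) (N m : ℕ), ρ ≤ 1 → ∀ x : (ZMod m)ˣ, Real.exp (Real.log N ^ b) ≤ (orderOf x : ℝ) →
      Common Nat.totient b ρ N m (orderOf x) := by
  refine ⟨?_, ⟨lm_totient, lm_sigma⟩, fun α d hα hd => expanding_pow hα hd, fun f b ρ N m w hρ hw hd => common_of_dvd hρ hw hd,
    fun b ρ N m hρ x hx => common_order hρ x hx⟩
  intro f hf G d hG n η κ ρ b c hn hη hκ h1 hρ hb hc hcb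
  have hη' : 0 < 1 / η := by positivity
  exact common_good (fun x : Fin n → ℤ => Admissible x) (fun x : Fin n → ℤ => (ht x : ℝ) < (radical (∏ j, x j) : ℝ) ^ η)
    (fun x => ((ht x : ℕ) : ℝ)) hf hG (s := 1 / η * (1 - 1 / (n.choose (n / 2) : ℝ)))
    (mul_nonneg hη'.le (StarshapedHeights.gap n)) hκ h1 hρ hb hc hcb (fun ε hε => count n hn η hη ε hε)

end Pool.Agent.Results.MP_7bfa24_nt.CommonFactors
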