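import Pool.Agent.U449.BV.F
import Pool.Agent.Results.MP_7bfa24_nt.StarshapedHeights

/-!
# The generalized abc inequality for all tuples with maximum near values of polynomials in two variables on arbitrary sets

Let `n ≥ 3`, `b = binom (n, ⌊n / 2⌋)`, `η > 0`, `κ ≥ 0` and `(1 - 1 / b) / η + κ < δ ≤ 1`. Let `f(x, y)` be an integer polynomial
with a monomial which contains both variables, `A`, `B` ARBITRARY finite sets of at least `X ^ δ` integers, and `g`, `h` ARBITRARY
real functions such that `|f(a, b) + g(a) + h(b)| ≤ X` on `A × B`. For all the pairs `(a, b)`, apart from a proportion of at most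
`X ^ (-ρ)`, ALL admissible `n`-tuples `x` (the sum of the entries is `0`, no proper subsum vanishes, greatest common divisor `1`)
with `|max |x_i| - (f(a, b) + g(a) + h(b))| ≤ X ^ κ` satisfy `max |x_i| < R (x_1 ⋯ x_n) ^ η`. The same holds, with `X = p`, for the
least residues of `f(a, b) + g(a) + h(b)` modulo a prime `p`, where `A`, `B` are arbitrary sets of residues, and more generally for
the values `F(a, b)` of all functions of two variables with few coincidences (`Rare`). The exponent `η = 2 n - 5` of the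
conjecture is admissible.

Since `A`, `B`, `g` and `h` are arbitrary, the values have no arithmetic structure, and a value can be taken by very many pairs. So
the number of the exceptional tuples (starting theorems of this problem) does not give the result directly. Proof: the
inequality of Cauchy and Schwarz; for most pairs `a, a'` the difference `F(a, b) - F(a', b)` is small for few `b`
(`Pool.Agent.U449.BV`).
-/

set_option autoImplicit false

namespace Pool.Agent.Results.MP_7bfa24_nt.MixedPolynomials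

open Finset
open Pool.Agent.U449.BV (Rare OnProducts on_products polys residues)

/-- `x` is admissible: the entries sum to `0`, their greatest common divisor is `1`, and no subsum
over a nonempty proper set of indices vanishes. -/
def Admissible {n : ℕ} (x : Fin n → ℤ) : Prop :=
  ∑ i, x i = 0 ∧ Finset.univ.gcd x = 1 ∧
    ∀ I : Finset (Fin n), I.Nonempty → I ≠ Finset.univ → ∑ i ∈ I, x i ≠ 0

/-- the radical of an integer: the product of the distinct primes dividing it -/
def radical (m : ℤ) : ℕ := ∏ p ∈ m.natAbs.primeFactors, p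

/-- `max |x_i|` -/
def ht {n : ℕ} (x : Fin n → ℤ) : ℕ := Finset.univ.sup fun i => (x i).natAbs

lemma count (n : ℕ) (hn : 3 ≤ n) (η : ℝ) (hη : 0 < η) (ε : ℝ) (hε : 0 < ε) : ∃ C : ℝ, ∀ X : ℝ, 1 ≤ X →
    {x : Fin n → ℤ | (Admissible x ∧ ¬ (ht x : ℝ) < (radical (∏ j, x j) : ℝ) ^ η) ∧ ((ht x : ℕ) : ℝ) ≤ X}.Finite ∧
      ({x : Fin n → ℤ | (Admissible x ∧ ¬ (ht x : ℝ) < (radical (∏ j, x j) : ℝ) ^ η) ∧ ((ht x : ℕ) : ℝ) ≤ X}.ncard : ℝ) ≤
        C * X ^ (1 / η * (1 - 1 / (n.choose (n / 2) : ℝ)) + ε) := by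
  have hη' : 0 < 1 / η := by positivity
  obtain ⟨K, hK⟩ := StarshapedHeights.count n hn (1 / η) hη' ε hε
  refine ⟨K, fun X hX => ?_⟩
  obtain ⟨h2, h3⟩ := hK X hX
  have he : {x : Fin n → ℤ | (Admissible x ∧ ¬ (ht x : ℝ) < (radical (∏ j, x j) : ℝ) ^ η) ∧ ((ht x : ℕ) : ℝ) ≤ X} ⊆
      {x | x ∈ StarshapedHeights.Exc n (1 / η) ∧ (StarshapedHeights.ht x : ℝ) ≤ X} := by
    rintro x ⟨⟨g1, g2⟩, g3⟩
    refine ⟨⟨g1, ?_⟩, g3⟩
    rw [not_lt] at g2
    have h0 : (0 : ℝ) ≤ (radical (∏ j, x j) : ℝ) := Nat.cast_nonneg _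
    change (radical (∏ j, x j) : ℝ) ≤ (ht x : ℝ) ^ (1 / η)
    calc (radical (∏ j, x j) : ℝ) = ((radical (∏ j, x j) : ℝ) ^ η) ^ (1 / η) := by
          rw [← Real.rpow_mul h0, mul_one_div_cancel hη.ne', Real.rpow_one]
      _ ≤ _ := Real.rpow_le_rpow (by positivity) g2 hη'.le
  refine ⟨h2.subset he, le_trans ?_ h3⟩
  exact_mod_cast Set.ncard_le_ncard he h2

/-- ALL admissible `n`-tuples `x` with `|max |x_i| - v| ≤ W` satisfy `max |x_i| < R (x_1 ⋯ x_n) ^ η`. -/
def Near (n : ℕ) (η : ℝ) (W v : ℝ) : Prop :=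
  ∀ x : Fin n → ℤ, Admissible x → |((ht x : ℕ) : ℝ) - v| ≤ W → (ht x : ℝ) < (radical (∏ j, x j) : ℝ) ^ η

/-- **Theorem.** Let `n ≥ 3`, `b = binom (n, ⌊n / 2⌋)`, `η > 0`, `κ ≥ 0`. (1) The property `Near`, with windows of length `X ^ κ`,
holds for almost all values of functions of two variables with few coincidences, on arbitrary finite sets of at least `X ^ δ`
elements, `(1 - 1 / b) / η + κ < δ ≤ 1` (`OnProducts`). (2) Coincidences are rare for `f(a, b) + g(a) + h(b)`, where `f` is any
integer polynomial with a monomial which contains both variables, and `g` and `h` are arbitrary real functions, on arbitrary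
finite sets of integers. (3) The same is true of the least residues of `f(a, b) + g(a) + h(b)` modulo a prime `p`. -/
theorem result :
    (∀ (n : ℕ) (η κ : ℝ), 3 ≤ n → 0 < η → 0 ≤ κ →
      OnProducts ((1 - 1 / (n.choose (n / 2) : ℝ)) / η + κ) κ (Near n η)) ∧
    (∀ (d : ℕ) (f : MvPolynomial (Fin 2) ℤ), f.totalDegree ≤ d → (∃ m ∈ f.support, m 0 ≠ 0 ∧ m 1 ≠ 0) →
      ∀ (g h : ℤ → ℝ) (A B : Finset ℤ),
        Rare d A B (fun a b => ((MvPolynomial.eval ![a, b] f : ℤ) : ℝ) + g a + h b)) ∧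
    ∀ (p : ℕ) [Fact p.Prime] (d : ℕ) (f : MvPolynomial (Fin 2) (ZMod p)), f.totalDegree ≤ d →
      (∃ m ∈ f.support, m 0 ≠ 0 ∧ m 1 ≠ 0) → ∀ (g h : ZMod p → ZMod p) (A B : Finset (ZMod p)),
        Rare d A B (fun a b => (((MvPolynomial.eval ![a, b] f + g a + h b).val : ℕ) : ℝ)) := by
  refine ⟨fun n η κ hn hη hκ => ?_, polys, residues⟩
  have hη' : 0 < 1 / η := by positivity
  have h2 := on_products (fun x : Fin n → ℤ => Admissible x)
    (fun x : Fin n → ℤ => (ht x : ℝ) < (radical (∏ j, x j) : ℝ) ^ η)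
    (fun x => ((ht x : ℕ) : ℝ)) (s := 1 / η * (1 - 1 / (n.choose (n / 2) : ℝ))) (κ := κ)
    (mul_nonneg hη'.le (StarshapedHeights.gap n)) hκ (fun ε hε => count n hn η hη ε hε)
  have e : 1 / η * (1 - 1 / (n.choose (n / 2) : ℝ)) = (1 - 1 / (n.choose (n / 2) : ℝ)) / η := by ring
  rw [e] at h2
  exact h2

end Pool.Agent.Results.MP_7bfa24_nt.MixedPolynomials
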