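import Pool.Agent.U405.RS.F
import Pool.Agent.U405.RS.F2
import Pool.Agent.Results.MP_7bfa24_nt.StarshapedHeights

/-!
# The generalized abc inequality for all `n`-tuples with height near values of `f` at thin sets of arguments

Let `f` be a positive multiplicative function of at most polynomial growth which for each `a ≥ 1` is injective at the powers
`p ^ a` of the large primes and at most `M p ^ a` there; for example Euler's function or the sum of the divisors. Let `n ≥ 3`, `b = binom (n, ⌊n / 2⌋)`, `η > 0`, `α > 0`, `d ≥ 1`, `κ ≥ 0` and `e = d (1 - 1 / b) / η + κ`. ALL admissible `n`-tuples `x`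
with `|max |x_i| - α f(v)^d| ≤ f(v)^κ` satisfy `max |x_i| < R (x_1 ⋯ x_n) ^ η`, for almost all `v` (with a saving of any power of
the logarithm) in each of these sets:

* the values of any integer polynomial without repeated roots, of degree `< 1 / e`;
* the shifted primes `p + a`, `a` any integer, if `e < 1`;
* the intervals `(x, x + y]`, `x^τ ≤ y ≤ x`, for every `τ > e`, `τ ≤ 1`.

For instance, for `η = 1` this applies to heights `φ(p - 1)`, `σ(p + 1)`; and for `η > deg P` to the heights `φ(P(m))`, for almost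
all `m`.

Proof. Own tool `Pool.Agent.U405.RS`: let `S` be a set of at least `N^(θ + δ)` integers up to `N` with at most
`B g^ω(k) |S| / k` multiples of `k` for every `k ≤ N^δ`, and let `W` have at most `C X^θ` elements up to `X`. Then `f(m) ∈ W` for at
most `|S| / (log N)^U` of the `m` in `S`. For this write `m = k w` with `k` composed of the primes `≤ z = N^(1 / J)`, `J` a small
multiple of `log log N`. By Rankin's method with the weights `g^ω(k)` one has `k ≤ N^η` for most `m`; and `w` has at most `J`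
prime factors and exponents `≤ J`, so that `w` is determined by `f(w)` up to `(J τ(f(w)) + 1)^J = N^o(1)` possibilities. The three
kinds of sets satisfy the hypothesis: for polynomials because `P` has at most `g` zeros modulo every prime power (lifting of
zeros by the identity `U P + V P' = R`), for shifted primes by the Brun-Titchmarsh inequality (library). The exceptional
tuples are counted by the starting theorems of this problem (`StarshapedHeights`).
-/

set_option autoImplicit false

namespace Pool.Agent.Results.MP_7bfa24_nt.SparseArguments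

open Finset
open Pool.Agent.N733.TG (Expanding expanding_pow)
open Pool.Agent.U405.RS (PM Sparse sparse_good examples)

/-- `x` is admissible: the entries sum to `0`, their greatest common divisor is `1`, and no subsum
over a nonempty proper set of indices vanishes. -/
def Admissible {n : ℕ} (x : Fin n → ℤ) : Prop :=
  ∑ i, x i = 0 ∧ Finset.univ.gcd x = 1 ∧
    ∀ I : Finset (Fin n), I.Nonempty → I ≠ Finset.univ → ∑ i ∈ I, x i ≠ 0

/-- the radical of an integer: the product of the distinct primes dividing it -/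
def radical (m : ℤ) : ℕ := ∏ p ∈ m.natAbs.primeFactors, p

/-- `max |x_i|` -/
def ht {n : ℕ} (x : Fin n → ℤ) : ℕ := Finset.univ.sup fun i => (x i).natAbs

lemma count (n : ℕ) (hn : 3 ≤ n) (η : ℝ) (hη : 0 < η) (ε : ℝ) (hε : 0 < ε) : ∃ C : ℝ, ∀ X : ℝ, 1 ≤ X →
    {x : Fin n → ℤ | (Admissible x ∧ ¬ (ht x : ℝ) < (radical (∏ j, x j) : ℝ) ^ η) ∧ ((ht x : ℕ) : ℝ) ≤ X}.Finite ∧
      ({x : Fin n → ℤ | (Admissible x ∧ ¬ (ht x : ℝ) < (radical (∏ j, x j) : ℝ) ^ η) ∧ ((ht x : ℕ) : ℝ) ≤ X}.ncard : ℝ) ≤
        C * X ^ (1 / η * (1 - 1 / (n.choose (n / 2) : ℝ)) + ε) := by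
  have hη' : 0 < 1 / η := by positivity
  obtain ⟨K, hK⟩ := StarshapedHeights.count n hn (1 / η) hη' ε hε
  refine ⟨K, fun X hX => ?_⟩
  obtain ⟨h2, h3⟩ := hK X hX
  have he : {x : Fin n → ℤ | (Admissible x ∧ ¬ (ht x : ℝ) < (radical (∏ j, x j) : ℝ) ^ η) ∧ ((ht x : ℕ) : ℝ) ≤ X} ⊆
      {x | x ∈ StarshapedHeights.Exc n (1 / η) ∧ (StarshapedHeights.ht x : ℝ) ≤ X} := by
    rintro x ⟨⟨g1, g2⟩, g3⟩
    refine ⟨⟨g1, ?_⟩, g3⟩
    rw [not_lt] at g2
    have h0 : (0 : ℝ) ≤ (radical (∏ j, x j) : ℝ) := Nat.cast_nonneg _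
    change (radical (∏ j, x j) : ℝ) ≤ (ht x : ℝ) ^ (1 / η)
    calc (radical (∏ j, x j) : ℝ) = ((radical (∏ j, x j) : ℝ) ^ η) ^ (1 / η) := by
          rw [← Real.rpow_mul h0, mul_one_div_cancel hη.ne', Real.rpow_one]
      _ ≤ _ := Real.rpow_le_rpow (by positivity) g2 hη'.le
  refine ⟨h2.subset he, le_trans ?_ h3⟩
  exact_mod_cast Set.ncard_le_ncard he h2

/-- all admissible `n`-tuples `x` with `|max |x_i| - G v| ≤ v ^ κ` satisfy `max |x_i| < R (x_1 ⋯ x_n) ^ η` -/
def Clear (n : ℕ) (η : ℝ) (G : ℕ → ℝ) (κ : ℝ) (v : ℕ) : Prop :=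
  ∀ x : Fin n → ℤ, Admissible x → |(ht x : ℝ) - G v| ≤ (v : ℝ) ^ κ → (ht x : ℝ) < (radical (∏ j, x j) : ℝ) ^ η

/-- **The generalized abc inequality near `G (f v)` for the `v` in thin sets.** Let `f` be in the class `PM`, `G` with steps
`≥ const > 0` and growth at most `v^d`, `n ≥ 3`, `b = binom (n, ⌊n / 2⌋)`, `η > 0`, `κ ≥ 0` and `U` any. The property that ALL
admissible `n`-tuples `x` with `|max |x_i| - G v| ≤ v^κ` satisfy `max |x_i| < R (x_1 ⋯ x_n) ^ η` holds in the sense `Sparse e f`,
`e = d (1 - 1 / b) / η + κ`. (`Sparse e f`: with a saving of `(log x)^U` it holds at `f v` for almost all `v` among the positive values of every integer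
polynomial without repeated roots of degree `< 1 / e`; among the shifted primes `p + a` for every `a`, if `e < 1`; and in all
intervals `(x, x + y]`, `x^τ ≤ y ≤ x`, `e < τ ≤ 1`.) Euler's function and the sum of the divisors are in the class `PM`, and
`α v^d` with `α > 0`, `d ≥ 1` is an example of `G`. -/
theorem result :
    (∀ f : ℕ → ℕ, PM f → ∀ (G : ℕ → ℝ) (d : ℝ), Expanding G d → ∀ (n : ℕ) (η κ : ℝ), 3 ≤ n → 0 < η → 0 ≤ κ →
      ∀ U : ℕ, Sparse (d * (1 / η * (1 - 1 / (n.choose (n / 2) : ℝ))) + κ) f (Clear n η G κ) U) ∧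
    (PM Nat.totient ∧ PM (fun m => ∑ d ∈ m.divisors, d) ∧ PM (fun m => m)) ∧
    ∀ α d : ℝ, 0 < α → 1 ≤ d → Expanding (fun v => α * (v : ℝ) ^ d) d := by
  refine ⟨fun f hf G d hG n η κ hn hη hκ U => ?_, examples, fun α d hα hd => expanding_pow hα hd⟩
  have hη' : 0 < 1 / η := by positivity
  exact sparse_good (fun x : Fin n → ℤ => Admissible x) (fun x : Fin n → ℤ => (ht x : ℝ) < (radical (∏ j, x j) : ℝ) ^ η)
    (fun x => ((ht x : ℕ) : ℝ)) hf hG (s := 1 / η * (1 - 1 / (n.choose (n / 2) : ℝ)))
    (mul_nonneg hη'.le (StarshapedHeights.gap n)) hκ (fun ε hε => count n hn η hη ε hε) U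

end Pool.Agent.Results.MP_7bfa24_nt.SparseArguments
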